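import Pool.Agent.H.MP_6ed562_lc.A
import Pool.Agent.Lib.helper21.Fix

set_option autoImplicit false

open Set Filter Topology Pool.Agent.Lib.helper21.Tens Pool.Agent.Lib.helper21.Fix

namespace Pool.Agent.Results.MP_6ed562_lc.No

universe w

/-- the Rudin-Keisler preorder -/
def LeRK (u v : Ultrafilter ℕ) : Prop := ∃ f : ℕ → ℕ, v.map f = u

/-- every sequence in X has a u-limit -/
def UCompact (u : Ultrafilter ℕ) (X : Type w) [TopologicalSpace X] : Prop :=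
  ∀ x : ℕ → X, ∃ y, Tendsto x u (𝓝 y)

/-- the Comfort preorder -/
def LeC (u v : Ultrafilter ℕ) : Prop :=
  ∀ (X : Type w) [TopologicalSpace X] [T35Space X], UCompact v X → UCompact u X

/-- classes of the equivalence attached to a preorder -/
def Cl (r : Ultrafilter ℕ → Ultrafilter ℕ → Prop) : Type := Quot fun u v => r u v ∧ r v u

/-- the class of an ultrafilter -/
def cl (r : Ultrafilter ℕ → Ultrafilter ℕ → Prop) (u : Ultrafilter ℕ) : Cl r := Quot.mk _ u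

lemma di {p q t : Ultrafilter ℕ} (ht : Pool.Agent.H.MP_6ed562_lc.WP t) {f : ℕ × ℕ → ℕ}
    (h : Tendsto f (tens p q) t) :
    (∃ g : ℕ → ℕ, Tendsto g p t ∧ ∀ᶠ z in (tens p q : Filter (ℕ × ℕ)), f z = g z.1) ∨
      ∀ᶠ n in (p : Filter ℕ), Tendsto (fun m => f (n, m)) q t := by
  refine (p.em fun n => Tendsto (fun m => f (n, m)) q t).symm.imp_left fun k => ?_
  obtain ⟨V, v1, v2⟩ := ht.2 fun n => q.map fun m => f (n, m)
  choose! g hg using fun n (a : ¬ (q.map fun m => f (n, m) : Ultrafilter ℕ).toFilter ≤ cofinite) =>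
    (Ultrafilter.le_cofinite_or_eq_pure _).resolve_left a
  have e : ∀ᶠ z in (tens p q : Filter (ℕ × ℕ)), f z = g z.1 := by
    refine (ev_tens _ _ _).2 ?_
    filter_upwards [k, (ev_tens _ _ (fun z => f z ∈ V)).1 (h v1)] with n a b
    have := hg n fun c => v2 n c (fun d => a (Ultrafilter.coe_inj.2 d).le) b
    exact (Ultrafilter.coe_inj.2 this).le (show {g n} ∈ pure (g n) from rfl)
  refine ⟨g, fun A a => mem_map.2 ?_, e⟩
  filter_upwards [(ev_tens _ _ _).1 (e.and (h.eventually a))] with n b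
  obtain ⟨m, c, d⟩ := b.exists
  exact show g n ∈ A from c ▸ d

lemma lt {u v z : Ultrafilter ℕ} (hu : Pool.Agent.H.MP_6ed562_lc.WP u)
    (hv : Pool.Agent.H.MP_6ed562_lc.WP v) (a : ∀ f : ℕ → ℕ, ¬ Tendsto f u v)
    (b : ∀ f : ℕ → ℕ, ¬ Tendsto f v u) {f g : ℕ → ℕ} (hf : Tendsto f z u) (hg : Tendsto g z v)
    {h : ℕ × ℕ → ℕ} (hh : Tendsto h (tens u v) z) : ∀ᶠ x in (z : Filter ℕ), f x < g x := by
  have e1 : ∀ᶠ x in (tens u v : Filter (ℕ × ℕ)), f (h x) = x.1 := by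
    rcases di hu (hf.comp hh) with ⟨k, k1, k2⟩ | k
    · filter_upwards [k2, (tendsto_fst u v).eventually (fix_nat _ _ k1)] with x c d
      exact c.trans d
    · exact (b _ k.exists.choose_spec).elim
  have e2 : ∀ᶠ x in (tens u v : Filter (ℕ × ℕ)), g (h x) = x.2 := by
    rcases di hv (hg.comp hh) with ⟨k, k1, -⟩ | k
    · exact (a _ k1).elim
    · exact (ev_tens _ _ _).2 (k.mono fun n c => fix_nat _ _ c)
  have e3 : ∀ᶠ x in (tens u v : Filter (ℕ × ℕ)), x.1 < x.2 := (ev_tens _ _ _).2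
    (.of_forall fun n => hv.1 (Nat.cofinite_eq_atTop ▸ eventually_gt_atTop n))
  by_contra k
  obtain ⟨x, ⟨c, d, e⟩, i⟩ := ((e1.and (e2.and e3)).and
    (hh.eventually (Ultrafilter.eventually_not.2 k))).exists
  exact i (by omega)

/-- the product on the naturals -/
noncomputable def tp (u v : Ultrafilter ℕ) : Ultrafilter ℕ := (tens u v).map Nat.pairEquiv

lemma r0 (u v : Ultrafilter ℕ) : (tp u v).map Nat.pairEquiv.symm = tens u v := by
  rw [tp, Ultrafilter.map_map, Equiv.symm_comp_self, Ultrafilter.map_id]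

lemma r1 (u v : Ultrafilter ℕ) : LeRK u (tp u v) := ⟨Prod.fst ∘ Nat.pairEquiv.symm, by
  rw [← Ultrafilter.map_map, r0]; exact Ultrafilter.eq_of_le (tendsto_fst u v)⟩

lemma r2 (u v : Ultrafilter ℕ) : LeRK v (tp u v) := ⟨Prod.snd ∘ Nat.pairEquiv.symm, by
  rw [← Ultrafilter.map_map, r0]; exact Ultrafilter.eq_of_le (tendsto_snd u v)⟩

lemma rc {u v : Ultrafilter ℕ} (h : LeRK u v) : LeC.{w} u v := by
  obtain ⟨f, rfl⟩ := h
  exact fun X _ _ k x => k (x ∘ f)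

lemma jn {u v z : Ultrafilter ℕ} (a : LeC.{w} u z) (b : LeC.{w} v z) : LeC.{w} (tp u v) z := by
  intro X _ _ k x
  choose y hy using fun n => b X k fun m => x (Nat.pairEquiv (n, m))
  obtain ⟨l, hl⟩ := a X k y
  refine ⟨l, tendsto_nhds.2 fun U o e => (ev_tens u v fun p => x (Nat.pairEquiv p) ∈ U).2 ?_⟩
  filter_upwards [hl (o.mem_nhds e)] with n c using hy n (o.mem_nhds c)

theorem result : ¬ ∃ Φ : Cl LeRK ≃ Cl LeC.{w}, ∀ u v u' v' : Ultrafilter ℕ,
    Φ (cl LeRK u) = cl LeC.{w} u' → Φ (cl LeRK v) = cl LeC.{w} v' → (LeRK u v ↔ LeC.{w} u' v') := by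
  rintro ⟨Φ, h⟩
  obtain ⟨u, v, hu, hv, a, b⟩ := Pool.Agent.H.MP_6ed562_lc.two
  choose p hp using fun u => Quot.exists_rep (Φ (cl LeRK u))
  obtain ⟨z, hz⟩ := Quot.exists_rep (Φ.symm (cl LeC.{w} (tp (p u) (p v))))
  replace hz : Φ (cl LeRK z) = cl LeC.{w} (tp (p u) (p v)) := Φ.eq_symm_apply.1 hz
  obtain ⟨f, hf⟩ := (h u z _ _ (hp u).symm hz).2 (rc (r1 _ _))
  obtain ⟨g, hg⟩ := (h v z _ _ (hp v).symm hz).2 (rc (r2 _ _))
  have k : ∀ t, LeRK u t → LeRK v t → LeRK z t := fun t c d => (h z t _ _ hz (hp t).symm).2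
    (jn ((h u t _ _ (hp u).symm (hp t).symm).1 c) ((h v t _ _ (hp v).symm (hp t).symm).1 d))
  obtain ⟨i, hi⟩ := k _ (r1 u v) (r2 u v)
  obtain ⟨j, hj⟩ := k _ (r2 v u) (r1 v u)
  obtain ⟨x, c, d⟩ := ((lt hu hv a b (Ultrafilter.coe_inj.2 hf).le (Ultrafilter.coe_inj.2 hg).le
    (h := i ∘ Nat.pairEquiv) (Ultrafilter.coe_inj.2 hi).le).and (lt hv hu b a
      (Ultrafilter.coe_inj.2 hg).le (Ultrafilter.coe_inj.2 hf).le (h := j ∘ Nat.pairEquiv)
        (Ultrafilter.coe_inj.2 hj).le)).exists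
  omega

end Pool.Agent.Results.MP_6ed562_lc.No
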